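import Pool.Agent.Y245.SC.Stm

/-!
# Project SC: the circle identities (jobs SC-IONE and SC-ITWO)
-/

set_option autoImplicit false

open Complex MeasureTheory Metric Set Filter Topology ComplexConjugate
open Pool.Agent.Y245.SC

namespace Pool.Agent.Y257.SC

/-- termwise integration over the unit circle -/
theorem circ_hasSum (F : ℕ → ℂ → ℂ) (f : ℂ → ℂ) (b : ℕ → ℝ)
    (hF : ∀ k, ContinuousOn (F k) (sphere 0 1))
    (hb : ∀ k, ∀ w ∈ sphere (0 : ℂ) 1, ‖F k w‖ ≤ b k) (hs : Summable b)
    (hsum : ∀ w ∈ sphere (0 : ℂ) 1, HasSum (fun k => F k w) (f w)) :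
    HasSum (fun k => ∮ w in C(0, 1), F k w) (∮ w in C(0, 1), f w) := by
  have hmem : ∀ θ : ℝ, circleMap 0 1 θ ∈ sphere (0 : ℂ) 1 := fun θ =>
    circleMap_mem_sphere 0 zero_le_one θ
  have hd : ∀ θ : ℝ, ‖deriv (circleMap 0 1) θ‖ = 1 := by
    intro θ
    simp [deriv_circleMap]
  refine intervalIntegral.hasSum_integral_of_dominated_convergence (fun k _ => b k) ?_ ?_ ?_ ?_ ?_
  · intro k
    apply Continuous.aestronglyMeasurable
    have h1 : Continuous fun θ : ℝ => F k (circleMap 0 1 θ) :=
      (hF k).comp_continuous (continuous_circleMap 0 1) hmem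
    have h2 : Continuous fun θ : ℝ => deriv (circleMap 0 1) θ := by
      simp only [deriv_circleMap]
      exact (continuous_circleMap 0 1).mul continuous_const
    exact h2.smul h1
  · intro k
    refine Filter.Eventually.of_forall fun θ _ => ?_
    rw [norm_smul, hd, one_mul]
    exact hb k _ (hmem θ)
  · exact Filter.Eventually.of_forall fun θ _ => hs
  · exact intervalIntegrable_const
  · refine Filter.Eventually.of_forall fun θ _ => ?_
    exact (hsum _ (hmem θ)).const_smul _

/-- a HasSum over `ℕ` with vanishing first term -/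
theorem hasSum_shift {f : ℕ → ℂ} {s : ℂ} (h : HasSum f s) :
    HasSum (fun k => f (k + 1)) (s - f 0) := by
  have := (hasSum_nat_add_iff' 1).2 h
  simpa using this

/-- the family used for the first identity -/
noncomputable def h1 (φ : ℂ → ℂ) (z0 : ℂ) : ℕ → ℂ → ℂ
  | 0, _ => 0
  | (k + 1), w => (φ w - z0) ^ k / (k.factorial : ℂ)

theorem bound_kernel (a B S : ℝ) :
    Summable fun k : ℕ => S * (a * ((a * B) ^ k / k.factorial)) :=
  ((Real.summable_pow_div_factorial (a * B)).mul_left a).mul_left S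

theorem coef_bound {a : ℝ} (ha : 0 < a) (k : ℕ) :
    ‖(-(a : ℂ)) ^ (k + 1) / ((k.factorial : ℂ) * ((k + 2).factorial : ℂ))‖ ≤
      a * (a ^ k / k.factorial) := by
  rw [norm_div, norm_pow, norm_neg, Complex.norm_real, Real.norm_of_nonneg ha.le, norm_mul,
    Complex.norm_natCast, Complex.norm_natCast, pow_succ]
  have h1 : (0 : ℝ) < k.factorial := by positivity
  have h2 : (1 : ℝ) ≤ (k + 2).factorial := by exact_mod_cast Nat.one_le_iff_ne_zero.2 (Nat.factorial_ne_zero _)
  rw [mul_comm (a ^ k) a, mul_div_assoc]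
  refine mul_le_mul_of_nonneg_left ?_ ha.le
  refine div_le_div_of_nonneg_left (by positivity) h1 ?_
  nlinarith

theorem ione : S_IONE := by
  intro hkap φ r a hr ha hφ hser z0
  obtain ⟨hkd, hkb, hks⟩ := hkap a ha.le
  have hsub : closedBall (0 : ℂ) 1 ⊆ ball 0 r := closedBall_subset_ball hr
  have hsub' : sphere (0 : ℂ) 1 ⊆ closedBall 0 1 := sphere_subset_closedBall
  have hφc : ContinuousOn φ (closedBall (0 : ℂ) 1) := hφ.continuousOn.mono hsub
  have hdφ : DifferentiableOn ℂ (deriv φ) (ball 0 r) := hφ.deriv isOpen_ball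
  have hdc : ContinuousOn (deriv φ) (closedBall (0 : ℂ) 1) := hdφ.continuousOn.mono hsub
  obtain ⟨B0, hB0⟩ := (isCompact_closedBall (0 : ℂ) 1).exists_bound_of_continuousOn
    (hφc.sub (continuousOn_const (c := z0)))
  obtain ⟨S0, hS0⟩ := (isCompact_closedBall (0 : ℂ) 1).exists_bound_of_continuousOn hφc
  obtain ⟨D0, hD0⟩ := (isCompact_closedBall (0 : ℂ) 1).exists_bound_of_continuousOn hdc
  set B := max B0 1 with hBd
  set S := max S0 1 with hSd
  set D := max D0 1 with hDd
  have hB1 : 1 ≤ B := le_max_right _ _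
  have hS1 : 1 ≤ S := le_max_right _ _
  have hD1 : 1 ≤ D := le_max_right _ _
  have hB : ∀ w ∈ closedBall (0 : ℂ) 1, ‖φ w - z0‖ ≤ B := fun w hw =>
    (hB0 w hw).trans (le_max_left _ _)
  have hS : ∀ w ∈ closedBall (0 : ℂ) 1, ‖φ w‖ ≤ S := fun w hw =>
    (hS0 w hw).trans (le_max_left _ _)
  have hD : ∀ w ∈ closedBall (0 : ℂ) 1, ‖deriv φ w‖ ≤ D := fun w hw =>
    (hD0 w hw).trans (le_max_left _ _)
  have hfac : ∀ k : ℕ, (k.factorial : ℂ) ≠ 0 := fun k => by
    exact_mod_cast Nat.factorial_ne_zero k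
  have hsum := hser (h1 φ z0) ?_ ?_ ?_
  · have h2 := hasSum_shift hsum
    have h3 := circ_hasSum
      (fun k w => (-(a : ℂ)) ^ (k + 1) / ((k.factorial : ℂ) * ((k + 2).factorial : ℂ)) *
        (conj (φ w) ^ (k + 2) * (φ w - z0) ^ k * deriv φ w))
      (fun w => conj (φ w) ^ 2 * kap a (conj (φ w) * (φ w - z0)) * deriv φ w)
      (fun k => (S ^ 2 * D) * (a * ((a * (S * B)) ^ k / k.factorial))) ?_ ?_ ?_ ?_
    · refine h3.unique ?_
      have e0 : (0 : ℂ) - (-(a : ℂ)) ^ 0 / (((0 + 1 : ℕ).factorial : ℕ) : ℂ) *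
          ∮ (w : ℂ) in C(0, 1), conj (φ w) ^ (0 + 1) * h1 φ z0 0 w * deriv φ w = 0 := by
        simp [h1, circleIntegral]
      rw [e0] at h2
      refine h2.congr_fun fun k => ?_
      rw [← circleIntegral.integral_const_mul]
      refine circleIntegral.integral_congr zero_le_one fun w _ => ?_
      have f1 := hfac k
      have f2 := hfac (k + 2)
      simp only [h1]
      rw [show k + 1 + 1 = k + 2 from rfl]
      field_simp
    · intro k
      have hφs : ContinuousOn φ (sphere (0 : ℂ) 1) := hφc.mono hsub'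
      have hcs : ContinuousOn (fun w => conj (φ w)) (sphere (0 : ℂ) 1) :=
        Complex.continuous_conj.comp_continuousOn hφs
      exact continuousOn_const.mul (((hcs.pow _).mul ((hφs.sub continuousOn_const).pow _)).mul
        (hdc.mono hsub'))
    · intro k w hw
      have hw' := hsub' hw
      rw [norm_mul, norm_mul, norm_mul, norm_pow, norm_pow, RCLike.norm_conj]
      have e1 := coef_bound ha k
      have e2 : ‖φ w‖ ^ (k + 2) * ‖φ w - z0‖ ^ k * ‖deriv φ w‖ ≤ S ^ (k + 2) * B ^ k * D := by
        have := hS w hw'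
        have := hB w hw'
        have := hD w hw'
        gcongr
      calc _ ≤ a * (a ^ k / k.factorial) * (S ^ (k + 2) * B ^ k * D) := by
            refine mul_le_mul e1 e2 (by positivity) (by positivity)
        _ = _ := by
            rw [mul_pow, mul_pow]
            ring
    · exact bound_kernel a (S * B) (S ^ 2 * D)
    · intro w hw
      have h5 := (hks (conj (φ w) * (φ w - z0))).mul_left (conj (φ w) ^ 2 * deriv φ w)
      have e : conj (φ w) ^ 2 * kap a (conj (φ w) * (φ w - z0)) * deriv φ w =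
        conj (φ w) ^ 2 * deriv φ w * kap a (conj (φ w) * (φ w - z0)) := by ring
      rw [e]
      refine h5.congr_fun fun k => ?_
      rw [mul_pow]
      ring
  · rintro (_ | k)
    · exact differentiableOn_const 0
    · exact ((hφ.sub_const z0).pow k).div_const _
  · rintro (_ | k) w hw
    · have e : h1 φ z0 (0 + 1) = fun _ => (1 : ℂ) := by
        funext x
        simp [h1]
      rw [e]
      simp [h1]
    · have hd : HasDerivAt φ (deriv φ w) w := (hφ.differentiableAt (isOpen_ball.mem_nhds hw)).hasDerivAt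
      have h4 : HasDerivAt (h1 φ z0 (k + 1 + 1))
          (((k + 1 : ℕ) : ℂ) * (φ w - z0) ^ k * deriv φ w / ((k + 1).factorial : ℂ)) w := by
        have := ((hd.sub_const z0).pow (k + 1)).div_const ((k + 1).factorial : ℂ)
        change HasDerivAt (fun x => (φ x - z0) ^ (k + 1) / ((k + 1).factorial : ℂ)) _ w
        simpa using this
      rw [h4.deriv]
      simp only [h1]
      rw [Nat.factorial_succ]
      have := hfac k
      have h5 : ((k : ℂ) + 1) ≠ 0 := by exact_mod_cast Nat.succ_ne_zero k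
      push_cast
      field_simp
  · refine ⟨1, B, ?_⟩
    rintro (_ | k) w hw
    · simp [h1]
    · simp only [h1]
      rw [norm_div, norm_pow, Complex.norm_natCast, one_mul]
      have h6 : (1 : ℝ) ≤ k.factorial := by exact_mod_cast Nat.one_le_iff_ne_zero.2 (Nat.factorial_ne_zero _)
      calc ‖φ w - z0‖ ^ k / k.factorial ≤ ‖φ w - z0‖ ^ k / 1 := by
            refine div_le_div_of_nonneg_left (by positivity) one_pos h6
        _ ≤ B ^ k := by
            rw [div_one]
            exact pow_le_pow_left₀ (norm_nonneg _) (hB w hw) k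
        _ ≤ B ^ (k + 1) := pow_le_pow_right₀ hB1 (Nat.le_succ k)

end Pool.Agent.Y257.SC
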