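import Pool.Agent.Y257.SC.Circ

/-!
# Project SC: the second circle identity (job SC-ITWO)
-/

set_option autoImplicit false

open Complex MeasureTheory Metric Set Filter Topology ComplexConjugate
open Pool.Agent.Y245.SC

namespace Pool.Agent.Y257.SC

/-- the primitive of `w^n φ(w)^j` -/
noncomputable def Pj (φ : ℂ → ℂ) (n j : ℕ) (w : ℂ) : ℂ := seg (fun y => y ^ n * φ y ^ j) 0 w

/-- `∫_0^1 (t w)^n (φ w - φ (t w))^k w dt` -/
noncomputable def Dk (φ : ℂ → ℂ) (n k : ℕ) (w : ℂ) : ℂ :=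
  ∫ t in (0 : ℝ)..1, (t * w) ^ n * (φ w - φ (t * w)) ^ k * w

theorem mem_seg {r t : ℝ} {w : ℂ} (hw : w ∈ ball (0 : ℂ) r) (ht : t ∈ Icc (0 : ℝ) 1) :
    (t : ℂ) * w ∈ ball (0 : ℂ) r := by
  rw [mem_ball_zero_iff] at hw ⊢
  rw [norm_mul, Complex.norm_real, Real.norm_of_nonneg ht.1]
  calc t * ‖w‖ ≤ 1 * ‖w‖ := mul_le_mul_of_nonneg_right ht.2 (norm_nonneg _)
    _ = ‖w‖ := one_mul _
    _ < r := hw

theorem cont_seg {φ : ℂ → ℂ} {r : ℝ} (hφ : ContinuousOn φ (ball 0 r)) {w : ℂ}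
    (hw : w ∈ ball (0 : ℂ) r) : ContinuousOn (fun t : ℝ => φ (t * w)) (Icc (0 : ℝ) 1) := by
  refine hφ.comp (by fun_prop) fun t ht => mem_seg hw ht

theorem Pj_eq (φ : ℂ → ℂ) (n j : ℕ) (w : ℂ) :
    Pj φ n j w = ∫ t in (0 : ℝ)..1, (t * w) ^ n * φ (t * w) ^ j * w := by
  unfold Pj seg
  refine intervalIntegral.integral_congr fun t _ => ?_
  simp

theorem Dk_eq {φ : ℂ → ℂ} {r : ℝ} (hφ : ContinuousOn φ (ball 0 r)) (n k : ℕ) {w : ℂ}
    (hw : w ∈ ball (0 : ℂ) r) : Dk φ n k w =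
      ∑ j ∈ Finset.range (k + 1), (k.choose j : ℂ) * (-1) ^ j * φ w ^ (k - j) * Pj φ n j w := by
  have h1 : ∀ t : ℝ, (t * w) ^ n * (φ w - φ (t * w)) ^ k * w =
      ∑ j ∈ Finset.range (k + 1), (k.choose j : ℂ) * (-1) ^ j * φ w ^ (k - j) *
        ((t * w) ^ n * φ (t * w) ^ j * w) := by
    intro t
    have e : φ w - φ (t * w) = -φ (t * w) + φ w := by ring
    rw [e, add_pow, Finset.mul_sum, Finset.sum_mul]
    refine Finset.sum_congr rfl fun j _ => ?_
    rw [neg_pow]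
    ring
  unfold Dk
  simp only [h1]
  rw [intervalIntegral.integral_finsetSum]
  · refine Finset.sum_congr rfl fun j _ => ?_
    rw [intervalIntegral.integral_const_mul, Pj_eq]
  · intro j _
    apply ContinuousOn.intervalIntegrable
    rw [uIcc_of_le zero_le_one]
    have h2 := cont_seg hφ hw
    exact continuousOn_const.mul (((by fun_prop : ContinuousOn (fun t : ℝ => ((t : ℂ) * w) ^ n)
      (Icc (0 : ℝ) 1)).mul (h2.pow j)).mul continuousOn_const)

theorem hasDeriv_Pj (hseg : S_SEG) {φ : ℂ → ℂ} {r : ℝ} (hr : 0 < r)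
    (hφ : DifferentiableOn ℂ φ (ball 0 r)) (n j : ℕ) {w : ℂ} (hw : w ∈ ball (0 : ℂ) r) :
    HasDerivAt (Pj φ n j) (w ^ n * φ w ^ j) w := by
  have hg : DifferentiableOn ℂ (fun y => y ^ n * φ y ^ j) (ball 0 r) :=
    (differentiableOn_id.pow n).mul (hφ.pow j)
  exact (hseg (ball 0 r) _ isOpen_ball (convex_ball 0 r) hg).2 0 (mem_ball_self hr) w hw

theorem hasDeriv_Dk (hseg : S_SEG) {φ : ℂ → ℂ} {r : ℝ} (hr : 0 < r)
    (hφ : DifferentiableOn ℂ φ (ball 0 r)) (n k : ℕ) {w : ℂ} (hw : w ∈ ball (0 : ℂ) r) :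
    HasDerivAt (Dk φ n (k + 1)) (((k : ℂ) + 1) * Dk φ n k w * deriv φ w) w := by
  have hd : HasDerivAt φ (deriv φ w) w :=
    (hφ.differentiableAt (isOpen_ball.mem_nhds hw)).hasDerivAt
  have hev : Dk φ n (k + 1) =ᶠ[𝓝 w] fun x => ∑ j ∈ Finset.range (k + 1 + 1),
      ((k + 1).choose j : ℂ) * (-1) ^ j * φ x ^ (k + 1 - j) * Pj φ n j x := by
    filter_upwards [isOpen_ball.mem_nhds hw] with x hx
    exact Dk_eq hφ.continuousOn n (k + 1) hx
  refine HasDerivAt.congr_of_eventuallyEq ?_ hev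
  have h1 : HasDerivAt (fun x => ∑ j ∈ Finset.range (k + 1 + 1),
      ((k + 1).choose j : ℂ) * (-1) ^ j * φ x ^ (k + 1 - j) * Pj φ n j x)
      (∑ j ∈ Finset.range (k + 1 + 1), (((k + 1).choose j : ℂ) * (-1) ^ j *
        (((k + 1 - j : ℕ) : ℂ) * φ w ^ (k + 1 - j - 1) * deriv φ w) * Pj φ n j w +
        ((k + 1).choose j : ℂ) * (-1) ^ j * φ w ^ (k + 1 - j) * (w ^ n * φ w ^ j))) w := by
    refine HasDerivAt.fun_sum fun j _ => ?_
    exact ((hd.pow (k + 1 - j)).const_mul (((k + 1).choose j : ℂ) * (-1) ^ j)).mul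
      (hasDeriv_Pj hseg hr hφ n j hw)
  refine h1.congr_deriv ?_
  rw [Finset.sum_add_distrib]
  have h2 : ∑ j ∈ Finset.range (k + 1 + 1),
      ((k + 1).choose j : ℂ) * (-1) ^ j * φ w ^ (k + 1 - j) * (w ^ n * φ w ^ j) = 0 := by
    have h3 := add_pow (-φ w) (φ w) (k + 1)
    rw [neg_add_cancel, zero_pow (Nat.succ_ne_zero k)] at h3
    have h4 : ∑ j ∈ Finset.range (k + 1 + 1),
        ((k + 1).choose j : ℂ) * (-1) ^ j * φ w ^ (k + 1 - j) * (w ^ n * φ w ^ j) =
        w ^ n * ∑ j ∈ Finset.range (k + 1 + 1),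
          (-φ w) ^ j * φ w ^ (k + 1 - j) * ((k + 1).choose j : ℂ) := by
      rw [Finset.mul_sum]
      refine Finset.sum_congr rfl fun j _ => ?_
      rw [neg_pow]
      ring
    rw [h4, ← h3, mul_zero]
  rw [h2, add_zero, Finset.sum_range_succ]
  have h5 : ((k + 1 - (k + 1) : ℕ) : ℂ) = 0 := by simp
  rw [h5, zero_mul, zero_mul, mul_zero, zero_mul, add_zero, Dk_eq hφ.continuousOn n k hw,
    Finset.mul_sum, Finset.sum_mul]
  refine Finset.sum_congr rfl fun j hj => ?_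
  have hj' : j ≤ k := Nat.lt_succ_iff.1 (Finset.mem_range.1 hj)
  have h6 : ((k + 1).choose j : ℂ) * ((k + 1 - j : ℕ) : ℂ) = (k.choose j : ℂ) * ((k : ℂ) + 1) := by
    have := Nat.choose_mul_succ_eq k j
    exact_mod_cast this.symm
  have h7 : k + 1 - j - 1 = k - j := by omega
  rw [h7]
  linear_combination ((-1) ^ j * φ w ^ (k - j) * deriv φ w * Pj φ n j w) * h6

theorem hasDeriv_Dk0 (hseg : S_SEG) {φ : ℂ → ℂ} {r : ℝ} (hr : 0 < r)
    (hφ : DifferentiableOn ℂ φ (ball 0 r)) (n : ℕ) {w : ℂ} (hw : w ∈ ball (0 : ℂ) r) :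
    HasDerivAt (Dk φ n 0) (w ^ n) w := by
  have hev : Dk φ n 0 =ᶠ[𝓝 w] Pj φ n 0 := by
    filter_upwards [isOpen_ball.mem_nhds hw] with x hx
    rw [Dk_eq hφ.continuousOn n 0 hx]
    simp
  have h1 := hasDeriv_Pj hseg hr hφ n 0 hw
  rw [pow_zero, mul_one] at h1
  exact h1.congr_of_eventuallyEq hev

/-- the family used for the second identity -/
noncomputable def h2 (φ : ℂ → ℂ) (n : ℕ) : ℕ → ℂ → ℂ
  | 0, w => w ^ n / deriv φ w
  | (k + 1), w => Dk φ n k w / (k.factorial : ℂ)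

theorem norm_Dk_le {φ : ℂ → ℂ} {S : ℝ} (hS : ∀ w ∈ closedBall (0 : ℂ) 1, ‖φ w‖ ≤ S) (n k : ℕ)
    {w : ℂ} (hw : w ∈ closedBall (0 : ℂ) 1) : ‖Dk φ n k w‖ ≤ (2 * S) ^ k := by
  have hw1 : ‖w‖ ≤ 1 := mem_closedBall_zero_iff.1 hw
  have h1 := intervalIntegral.norm_integral_le_of_norm_le_const (a := (0 : ℝ)) (b := 1)
    (C := (2 * S) ^ k) (f := fun t : ℝ => (t * w) ^ n * (φ w - φ (t * w)) ^ k * w) ?_
  · rw [sub_zero, abs_one, mul_one] at h1
    exact h1
  · intro t ht
    rw [uIoc_of_le zero_le_one] at ht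
    have h3 : ‖(t : ℂ) * w‖ ≤ 1 := by
      rw [norm_mul, Complex.norm_real, Real.norm_of_nonneg ht.1.le]
      calc t * ‖w‖ ≤ 1 * 1 := mul_le_mul ht.2 hw1 (norm_nonneg _) zero_le_one
        _ = 1 := one_mul 1
    have h4 : ‖φ w - φ (t * w)‖ ≤ 2 * S := by
      refine (norm_sub_le _ _).trans ?_
      have := hS w hw
      have := hS (t * w) (mem_closedBall_zero_iff.2 h3)
      linarith
    rw [norm_mul, norm_mul, norm_pow, norm_pow]
    calc ‖(t : ℂ) * w‖ ^ n * ‖φ w - φ (t * w)‖ ^ k * ‖w‖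
        ≤ 1 * (2 * S) ^ k * 1 := by
          refine mul_le_mul (mul_le_mul (pow_le_one₀ (norm_nonneg _) h3)
            (pow_le_pow_left₀ (norm_nonneg _) h4 k) (by positivity) zero_le_one) hw1
            (norm_nonneg _) ?_
          have : 0 ≤ 2 * S := (norm_nonneg _).trans h4
          positivity
      _ = (2 * S) ^ k := by ring

/-- the series for the inner integral -/
theorem inner_hasSum (hkap : S_KAP) {φ : ℂ → ℂ} {r a S : ℝ} (ha : 0 < a) (hr : 1 < r)
    (hφ : DifferentiableOn ℂ φ (ball 0 r)) (hS : ∀ w ∈ closedBall (0 : ℂ) 1, ‖φ w‖ ≤ S) (n : ℕ)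
    {w : ℂ} (hw : w ∈ closedBall (0 : ℂ) 1) :
    HasSum (fun k : ℕ => (-(a : ℂ)) ^ (k + 1) / ((k.factorial : ℂ) * ((k + 2).factorial : ℂ)) *
      (conj (φ w) ^ k * Dk φ n k w))
      (∫ t in (0 : ℝ)..1, (t * w) ^ n * kap a (conj (φ w) * (φ w - φ (t * w))) * w) := by
  obtain ⟨hkd, hkb, hks⟩ := hkap a ha.le
  have hwr : w ∈ ball (0 : ℂ) r := closedBall_subset_ball hr hw
  have hw1 : ‖w‖ ≤ 1 := mem_closedBall_zero_iff.1 hw
  have hS0 : 0 ≤ S := (norm_nonneg _).trans (hS w hw)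
  have hcs : ContinuousOn (fun t : ℝ => φ (t * w)) (Icc (0 : ℝ) 1) :=
    cont_seg hφ.continuousOn hwr
  have e : ∀ k : ℕ, (-(a : ℂ)) ^ (k + 1) / ((k.factorial : ℂ) * ((k + 2).factorial : ℂ)) *
      (conj (φ w) ^ k * Dk φ n k w) = ∫ t in (0 : ℝ)..1,
        (-(a : ℂ)) ^ (k + 1) / ((k.factorial : ℂ) * ((k + 2).factorial : ℂ)) *
          (conj (φ w) ^ k * ((t * w) ^ n * (φ w - φ (t * w)) ^ k * w)) := by
    intro k
    rw [intervalIntegral.integral_const_mul, intervalIntegral.integral_const_mul]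
    rfl
  simp only [e]
  refine intervalIntegral.hasSum_integral_of_dominated_convergence
    (fun k _ => 1 * (a * ((a * (S * (2 * S))) ^ k / k.factorial))) ?_ ?_ ?_ ?_ ?_
  · intro k
    apply ContinuousOn.aestronglyMeasurable _ measurableSet_uIoc
    rw [uIoc_of_le zero_le_one]
    refine ContinuousOn.mono ?_ Ioc_subset_Icc_self
    exact continuousOn_const.mul (continuousOn_const.mul
      (((by fun_prop : ContinuousOn (fun t : ℝ => ((t : ℂ) * w) ^ n) (Icc (0 : ℝ) 1)).mul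
        ((continuousOn_const.sub hcs).pow k)).mul continuousOn_const))
  · intro k
    refine Filter.Eventually.of_forall fun t ht => ?_
    rw [uIoc_of_le zero_le_one] at ht
    have h3 : ‖(t : ℂ) * w‖ ≤ 1 := by
      rw [norm_mul, Complex.norm_real, Real.norm_of_nonneg ht.1.le]
      calc t * ‖w‖ ≤ 1 * 1 := mul_le_mul ht.2 hw1 (norm_nonneg _) zero_le_one
        _ = 1 := one_mul 1
    have h4 : ‖φ w - φ (t * w)‖ ≤ 2 * S := by
      refine (norm_sub_le _ _).trans ?_
      have := hS w hw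
      have := hS (t * w) (mem_closedBall_zero_iff.2 h3)
      linarith
    rw [norm_mul, norm_mul, norm_mul, norm_mul, norm_pow, norm_pow, norm_pow, RCLike.norm_conj]
    have e1 := coef_bound ha k
    have e2 : ‖φ w‖ ^ k * (‖(t : ℂ) * w‖ ^ n * ‖φ w - φ (t * w)‖ ^ k * ‖w‖) ≤
        S ^ k * (1 * (2 * S) ^ k * 1) := by
      have h5 := hS w hw
      have h6 : ‖(t : ℂ) * w‖ ^ n ≤ 1 := pow_le_one₀ (norm_nonneg _) h3
      have h7 : ‖φ w - φ (t * w)‖ ^ k ≤ (2 * S) ^ k := pow_le_pow_left₀ (norm_nonneg _) h4 k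
      have h8 : ‖φ w‖ ^ k ≤ S ^ k := pow_le_pow_left₀ (norm_nonneg _) h5 k
      have h9 : ‖(t : ℂ) * w‖ ^ n * ‖φ w - φ (t * w)‖ ^ k * ‖w‖ ≤ 1 * (2 * S) ^ k * 1 :=
        mul_le_mul (mul_le_mul h6 h7 (by positivity) zero_le_one) hw1 (norm_nonneg _)
          (by positivity)
      exact mul_le_mul h8 h9 (by positivity) (by positivity)
    calc _ ≤ a * (a ^ k / k.factorial) * (S ^ k * (1 * (2 * S) ^ k * 1)) :=
          mul_le_mul e1 e2 (by positivity) (by positivity)
      _ = _ := by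
          rw [mul_pow a, mul_pow S]
          ring
  · exact Filter.Eventually.of_forall fun t _ => bound_kernel a (S * (2 * S)) 1
  · exact intervalIntegrable_const
  · refine Filter.Eventually.of_forall fun t _ => ?_
    have h5 := (hks (conj (φ w) * (φ w - φ (t * w)))).mul_left ((t * w) ^ n * w)
    have e : (t * w) ^ n * kap a (conj (φ w) * (φ w - φ (t * w))) * w =
      (t * w) ^ n * w * kap a (conj (φ w) * (φ w - φ (t * w))) := by ring
    rw [e]
    refine h5.congr_fun fun k => ?_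
    rw [mul_pow (conj (φ w))]
    ring

theorem itwo (hseg : S_SEG) : S_ITWO := by
  intro hkap φ r a hr ha hφ hnz hser n
  have hr0 : 0 < r := one_pos.trans hr
  have hsub : closedBall (0 : ℂ) 1 ⊆ ball 0 r := closedBall_subset_ball hr
  have hsub' : sphere (0 : ℂ) 1 ⊆ closedBall 0 1 := sphere_subset_closedBall
  have hφc : ContinuousOn φ (closedBall (0 : ℂ) 1) := hφ.continuousOn.mono hsub
  have hdφ : DifferentiableOn ℂ (deriv φ) (ball 0 r) := hφ.deriv isOpen_ball
  have hdc : ContinuousOn (deriv φ) (closedBall (0 : ℂ) 1) := hdφ.continuousOn.mono hsub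
  obtain ⟨S0, hS0⟩ := (isCompact_closedBall (0 : ℂ) 1).exists_bound_of_continuousOn hφc
  obtain ⟨D0, hD0⟩ := (isCompact_closedBall (0 : ℂ) 1).exists_bound_of_continuousOn hdc
  have hq : ContinuousOn (h2 φ n 0) (closedBall (0 : ℂ) 1) :=
    (continuousOn_id.pow n).div hdc fun w hw => hnz w (hsub hw)
  obtain ⟨Q0, hQ0⟩ := (isCompact_closedBall (0 : ℂ) 1).exists_bound_of_continuousOn hq
  set S := max S0 1 with hSd
  set D := max D0 1 with hDd
  have hS1 : 1 ≤ S := le_max_right _ _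
  have hD1 : 1 ≤ D := le_max_right _ _
  have hS : ∀ w ∈ closedBall (0 : ℂ) 1, ‖φ w‖ ≤ S := fun w hw =>
    (hS0 w hw).trans (le_max_left _ _)
  have hD : ∀ w ∈ closedBall (0 : ℂ) 1, ‖deriv φ w‖ ≤ D := fun w hw =>
    (hD0 w hw).trans (le_max_left _ _)
  have hfac : ∀ k : ℕ, (k.factorial : ℂ) ≠ 0 := fun k => by
    exact_mod_cast Nat.factorial_ne_zero k
  have hDkd : ∀ k, DifferentiableOn ℂ (Dk φ n k) (ball 0 r) := by
    rintro (_ | k) w hw
    · exact (hasDeriv_Dk0 hseg hr0 hφ n hw).differentiableAt.differentiableWithinAt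
    · exact (hasDeriv_Dk hseg hr0 hφ n k hw).differentiableAt.differentiableWithinAt
  have hφs : ContinuousOn φ (sphere (0 : ℂ) 1) := hφc.mono hsub'
  have hcs : ContinuousOn (fun w => conj (φ w)) (sphere (0 : ℂ) 1) :=
    Complex.continuous_conj.comp_continuousOn hφs
  have hsum := hser (h2 φ n) ?_ ?_ ?_
  · have g2 := hasSum_shift hsum
    set F : ℕ → ℂ → ℂ := fun k w => (-(a : ℂ)) ^ (k + 1) / ((k.factorial : ℂ) *
      ((k + 2).factorial : ℂ)) * (conj (φ w) ^ (k + 2) * Dk φ n k w * deriv φ w) with hFd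
    set f : ℂ → ℂ := fun w => conj (φ w) ^ 2 * deriv φ w *
      ∫ t in (0 : ℝ)..1, (t * w) ^ n * kap a (conj (φ w) * (φ w - φ (t * w))) * w with hfd
    have hFc : ∀ k, ContinuousOn (F k) (sphere 0 1) := fun k =>
      continuousOn_const.mul (((hcs.pow _).mul (((hDkd k).continuousOn.mono hsub).mono hsub')).mul
        (hdc.mono hsub'))
    have hFb : ∀ k, ∀ w ∈ sphere (0 : ℂ) 1, ‖F k w‖ ≤
        (S ^ 2 * D) * (a * ((a * (S * (2 * S))) ^ k / k.factorial)) := by
      intro k w hw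
      have hw' := hsub' hw
      rw [hFd]
      simp only
      rw [norm_mul, norm_mul, norm_mul, norm_pow, RCLike.norm_conj]
      have e1 := coef_bound ha k
      have e2 : ‖φ w‖ ^ (k + 2) * ‖Dk φ n k w‖ * ‖deriv φ w‖ ≤
          S ^ (k + 2) * (2 * S) ^ k * D := by
        have := hS w hw'
        have := norm_Dk_le hS n k hw'
        have := hD w hw'
        gcongr
      calc _ ≤ a * (a ^ k / k.factorial) * (S ^ (k + 2) * (2 * S) ^ k * D) :=
            mul_le_mul e1 e2 (by positivity) (by positivity)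
        _ = _ := by
            rw [mul_pow a, mul_pow S]
            ring
    have hFs : ∀ w ∈ sphere (0 : ℂ) 1, HasSum (fun k => F k w) (f w) := by
      intro w hw
      have h5 := (inner_hasSum hkap ha hr hφ hS n (hsub' hw)).mul_left
        (conj (φ w) ^ 2 * deriv φ w)
      refine h5.congr_fun fun k => ?_
      rw [hFd]
      ring
    have h3 := circ_hasSum F f _ hFc hFb (bound_kernel a (S * (2 * S)) (S ^ 2 * D)) hFs
    have hfc : ContinuousOn f (sphere (0 : ℂ) 1) := by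
      have h6 := continuousOn_tsum hFc (bound_kernel a (S * (2 * S)) (S ^ 2 * D))
        (fun k w hw => hFb k w hw)
      refine h6.congr fun w hw => ?_
      exact (hFs w hw).tsum_eq.symm
    have h4 : HasSum (fun k => ∮ (w : ℂ) in C(0, 1), F k w)
        (0 - (-(a : ℂ)) ^ 0 / (((0 + 1 : ℕ).factorial : ℕ) : ℂ) *
          ∮ (w : ℂ) in C(0, 1), conj (φ w) ^ (0 + 1) * h2 φ n 0 w * deriv φ w) := by
      refine g2.congr_fun fun k => ?_
      rw [← circleIntegral.integral_const_mul]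
      refine circleIntegral.integral_congr zero_le_one fun w _ => ?_
      have f1 := hfac k
      have f2 := hfac (k + 2)
      simp only [h2, hFd]
      rw [show k + 1 + 1 = k + 2 from rfl]
      field_simp
    have h5 := h3.unique h4
    have h6 : ∮ (w : ℂ) in C(0, 1), conj (φ w) ^ (0 + 1) * h2 φ n 0 w * deriv φ w =
        ∮ (w : ℂ) in C(0, 1), conj (φ w) * w ^ n := by
      refine circleIntegral.integral_congr zero_le_one fun w hw => ?_
      have := hnz w (hsub (hsub' hw))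
      simp only [h2]
      field_simp
      ring
    rw [h6] at h5
    have hA : CircleIntegrable (fun w => conj (φ w) * w ^ n) 0 1 :=
      (hcs.mul (continuousOn_id.pow n)).circleIntegrable zero_le_one
    have hB : CircleIntegrable f 0 1 := hfc.circleIntegrable zero_le_one
    have h7 := circleIntegral.integral_add hA hB
    change ∮ (w : ℂ) in C(0, 1), (conj (φ w) * w ^ n + f w) = 0
    rw [h7, h5]
    simp
  · rintro (_ | k)
    · exact (differentiableOn_id.pow n).div hdφ fun w hw => hnz w hw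
    · exact (hDkd k).div_const _
  · rintro (_ | k) w hw
    · have e : h2 φ n (0 + 1) = Dk φ n 0 := by
        funext x
        simp [h2]
      rw [e, (hasDeriv_Dk0 hseg hr0 hφ n hw).deriv]
      have := hnz w hw
      simp only [h2]
      field_simp
    · have h4 : HasDerivAt (h2 φ n (k + 1 + 1))
          (((k : ℂ) + 1) * Dk φ n k w * deriv φ w / ((k + 1).factorial : ℂ)) w :=
        (hasDeriv_Dk hseg hr0 hφ n k hw).div_const ((k + 1).factorial : ℂ)
      rw [h4.deriv]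
      simp only [h2]
      rw [Nat.factorial_succ]
      have := hfac k
      have h5 : ((k : ℂ) + 1) ≠ 0 := by exact_mod_cast Nat.succ_ne_zero k
      push_cast
      field_simp
  · refine ⟨max Q0 1, 2 * S, ?_⟩
    rintro (_ | k) w hw
    · rw [pow_zero, mul_one]
      exact (hQ0 w hw).trans (le_max_left _ _)
    · simp only [h2]
      rw [norm_div, Complex.norm_natCast]
      have h6 : (1 : ℝ) ≤ k.factorial := by
        exact_mod_cast Nat.one_le_iff_ne_zero.2 (Nat.factorial_ne_zero _)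
      calc ‖Dk φ n k w‖ / k.factorial ≤ ‖Dk φ n k w‖ / 1 := by
            refine div_le_div_of_nonneg_left (by positivity) one_pos h6
        _ ≤ (2 * S) ^ k := by
            rw [div_one]
            exact norm_Dk_le hS n k hw
        _ ≤ (2 * S) ^ (k + 1) := pow_le_pow_right₀ (by linarith) (Nat.le_succ k)
        _ = 1 * (2 * S) ^ (k + 1) := (one_mul _).symm
        _ ≤ max Q0 1 * (2 * S) ^ (k + 1) :=
            mul_le_mul_of_nonneg_right (le_max_right _ _) (by positivity)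

end Pool.Agent.Y257.SC
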