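import Pool.Agent.Y257.SC.Pair

/-!
# Continuous analytic capacity is strongly subadditive
-/

set_option autoImplicit false

open MeasureTheory Complex Filter Topology Metric
open scoped ComplexConjugate
open Pool.Agent.H352R3.SA
open Pool.Agent.H352R4.CA
open Pool.Agent.H761R2.SV (dbar)

namespace Pool.Agent.Y257.SC

theorem Mod_add {ω ω' : ℝ → ℝ} (h : Mod ω) (h' : Mod ω') : Mod (fun s => ω s + ω' s) where
  zero := add_nonneg h.zero h'.zero
  pos := fun s hs => add_pos (h.pos s hs) (h'.pos s hs)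
  mono := fun s s' hs hss => add_le_add (h.mono s s' hs hss) (h'.mono s s' hs hss)
  root := fun s s' hs hss => by
    have h1 := h.root s s' hs hss
    have h2 := h'.root s s' hs hss
    rw [mul_add]
    exact add_le_add h1 h2
  lim := by
    have := h.lim.add h'.lim
    simpa using this

theorem Mod_nonneg {ω : ℝ → ℝ} (h : Mod ω) {s : ℝ} (hs : 0 ≤ s) : 0 ≤ ω s := by
  rcases hs.eq_or_lt with h0 | h0
  · rw [← h0]; exact h.zero
  · exact (h.pos s h0).le

theorem main_pair {ω : ℝ → ℝ} (hω : Mod ω) {η : ℝ} (hη : 0 < η) (hη1 : η < 1) :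
    ∃ Θ : ℝ → ℝ, 0 ≤ Θ 0 ∧ (∀ s s', 0 ≤ s → s ≤ s' → Θ s ≤ Θ s') ∧
      Tendsto Θ (𝓝[>] 0) (𝓝 0) ∧ ∀ (A B : Set ℂ), IsCompact A → IsCompact B →
      ∀ (f f' : ℂ → ℂ) (l l' : ℂ), Ac (A ∪ B) f l → Ac (A ∩ B) f' l' →
      (∀ z, ‖f z‖ ≤ 1) → (∀ z, ‖f' z‖ ≤ 1) →
      (∀ z u, ‖f (z + u) - f z‖ ≤ ω ‖u‖) → (∀ z u, ‖f' (z + u) - f' z‖ ≤ ω ‖u‖) →
      (1 - η) * (‖l‖ + ‖l'‖) ≤ (1 + η) * (al Θ A + al Θ B) := by
  obtain ⟨C, t₀, hT⟩ := transplant
  obtain ⟨C₆, hV⟩ := vit_osc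
  obtain ⟨hC1, ht0, hCt, -⟩ := id hT
  have hC61 : 1 ≤ C₆ := hV.1
  have hC0 : 0 < C := by linarith
  set t : ℝ := min (t₀ / 3) (η / (3 * C)) with ht
  have htpos : 0 < t := lt_min (by positivity) (by positivity)
  have htle : 3 * t ≤ t₀ := by
    have : t ≤ t₀ / 3 := min_le_left _ _
    linarith
  have hCtη : C * (3 * t) ≤ η := by
    have : t ≤ η / (3 * C) := min_le_right _ _
    rw [le_div_iff₀ (by positivity)] at this
    linarith
  have hq : 0 < 1 - (1 - η) ^ 2 := by nlinarith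
  -- first scale
  obtain ⟨d0, hd0, -, hd0'⟩ := MaiAux.small hω (r := 1) (c := t * (1 - (1 - η) ^ 2) / 8) hC61
    (by positivity) one_pos
  -- next scales
  have hnext : ∀ x : ℝ, 0 < x → ∃ y, 0 < y ∧ y ≤ x / 5 ∧ C₆ * ω (4 * y) ≤ t₀ * ω (4 * x) / 4 := by
    intro x hx
    have hwx : 0 < ω (4 * x) := hω.pos _ (by positivity)
    exact MaiAux.small hω hC61 (by positivity) (by positivity)
  choose! g hg0 hg5 hgw using hnext
  set δ : ℕ → ℝ := fun k => g^[k] d0 with hδdef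
  have hsucc : ∀ k, δ (k + 1) = g (δ k) := fun k => Function.iterate_succ_apply' g k d0
  have hδ : ∀ k, 0 < δ k := by
    intro k
    induction k with
    | zero => exact hd0
    | succ k ih => rw [hsucc]; exact hg0 _ ih
  have h5 : ∀ k, 5 * δ (k + 1) ≤ δ k := by
    intro k
    have := hg5 (δ k) (hδ k)
    rw [hsucc]; linarith
  have hr : ∀ k, 4 * C₆ * ω (4 * δ (k + 1)) ≤ t₀ * ω (4 * δ k) := by
    intro k
    have := hgw (δ k) (hδ k)
    rw [hsucc]; linarith
  have hδ' : ∀ k, δ (k + 1) ≤ δ k := fun k => by have := h5 k; have := hδ (k + 1); linarith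
  have hδlim : Tendsto δ atTop (𝓝 0) := by
    have h1 : ∀ k, δ k ≤ d0 * (1 / 5) ^ k := by
      intro k
      induction k with
      | zero => simp [hδdef]
      | succ k ih =>
        have := h5 k
        rw [pow_succ]
        linarith
    have h2 : Tendsto (fun k : ℕ => d0 * (1 / 5 : ℝ) ^ k) atTop (𝓝 (d0 * 0)) :=
      (tendsto_pow_atTop_nhds_zero_of_lt_one (by norm_num) (by norm_num)).const_mul d0
    rw [mul_zero] at h2
    exact squeeze_zero (fun k => (hδ k).le) h1 h2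
  obtain ⟨Θ, hΘ0, hΘm, hΘl, hΘW⟩ := Wm_lim hC1 hδ hδ'
  refine ⟨Θ, hΘ0, hΘm, hΘl, ?_⟩
  intro A B hA hB f f' l l' hf hf' hf1 hf1' hfo hfo'
  have hS : IsCompact (A ∪ B) := hA.union hB
  have hD : IsCompact (A ∩ B) := hA.inter hB
  -- the estimate for every n
  have key : ∀ n : ℕ, (1 - η) * (‖l‖ + ‖l'‖) ≤ (1 + η) *
      (al (Wm C δ (n + 1) 0) (cthickening (δ n) A) +
        al (Wm C δ (n + 1) 0) (cthickening (δ n) B)) := by
    intro n
    have hP := MaiAux.chain hT hV hω hδ h5 hr hA hB n n 0 (by omega)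
    have hQ := MaiAux.chain hT hV hω hδ h5 hr hD hD n n 0 (by omega)
    have hN : 1 < 1 / (1 - η) := by
      rw [lt_div_iff₀ (by linarith)]; linarith
    have h1 := pair (M := 1) (N := 1 / (1 - η)) (t := t) hT hV hω (hδ 0) (Wm_GM hC1 hδ hδ' n 0)
      hA.cthickening hB.cthickening hD.cthickening
      (cthickening_subset_of_subset _ Set.inter_subset_left)
      (cthickening_subset_of_subset _ Set.inter_subset_right) hP hQ hS hD
      (Set.inter_subset_left.trans Set.subset_union_left) subset_rfl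
      Set.subset_union_left hf hf' zero_le_one hN hf1 hf1' hfo hfo' htpos htle (by
        have e1 : (1:ℝ) / (1 / (1 - η)) = 1 - η := by
          rw [one_div_one_div]
        rw [e1, div_div_eq_mul_div, div_one]
        have h0 : C₆ * ω (4 * δ 0) ≤ t * (1 - (1 - η) ^ 2) / 8 := hd0'
        have hw0 : 0 ≤ C₆ * ω (4 * δ 0) :=
          mul_nonneg (by linarith) (hω.pos _ (by have := hδ 0; linarith)).le
        nlinarith)
    set a1 := al (Ph C (δ 0) (Wm C δ n (0 + 1))) (cthickening (δ n) A) with ha1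
    set b1 := al (Ph C (δ 0) (Wm C δ n (0 + 1))) (cthickening (δ n) B) with hb1
    have n1 : 0 ≤ a1 := al_nonneg _ _
    have n2 : 0 ≤ b1 := al_nonneg _ _
    have h1η : 0 < 1 - η := by linarith
    have h2 : (1 - η) * (‖l‖ + ‖l'‖) ≤ (1 + C * (3 * t)) * (a1 + b1) := by
      have h3 := mul_le_mul_of_nonneg_left h1 h1η.le
      have e2 : (1 - η) * (1 / (1 - η) * (1 + C * (3 * t)) * (a1 + b1)) =
          (1 + C * (3 * t)) * (a1 + b1) := by
        field_simp
      rw [e2] at h3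
      exact h3
    refine h2.trans ?_
    exact mul_le_mul_of_nonneg_right (by linarith) (add_nonneg n1 n2)
  have hle : ∀ s, 0 < s → ∀ᶠ n in atTop, Wm C δ (n + 1) 0 s ≤ Θ s := by
    intro s hs
    exact (tendsto_add_atTop_nat 1).eventually (hΘW s hs)
  have hmono : ∀ n s s', 0 ≤ s → s ≤ s' → Wm C δ (n + 1) 0 s ≤ Wm C δ (n + 1) 0 s' :=
    fun n s s' hs hss => Wm_mono hC1 hδ (n + 1) 0 hs hss
  refine le_of_forall_pos_le_add fun ε hε => ?_
  have limA := al_limit hA (Ωn := fun n => Wm C δ (n + 1) 0) hmono hΘ0 hΘm hΘl hle hδ hδlim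
    (η := ε / 4) (by positivity)
  have limB := al_limit hB (Ωn := fun n => Wm C δ (n + 1) 0) hmono hΘ0 hΘm hΘl hle hδ hδlim
    (η := ε / 4) (by positivity)
  obtain ⟨n, hn1, hn2⟩ := (limA.and limB).exists
  have h1 := key n
  nlinarith

/-- **Continuous analytic capacity is strongly subadditive.** -/
theorem alpha_strong {A B : Set ℂ} (hA : IsCompact A) (hB : IsCompact B) :
    alpha (A ∪ B) + alpha (A ∩ B) ≤ alpha A + alpha B := by
  have key : ∀ (f f' : ℂ → ℂ) (l l' : ℂ), Ac (A ∪ B) f l → Ac (A ∩ B) f' l' →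
      (∀ z, ‖f z‖ ≤ 1) → (∀ z, ‖f' z‖ ≤ 1) → ‖l‖ + ‖l'‖ ≤ alpha A + alpha B := by
    intro f f' l l' hf hf' hb hb'
    obtain ⟨ω₁, hω₁, ho₁⟩ := exists_mod hf.cont hf.zero
    obtain ⟨ω₂, hω₂, ho₂⟩ := exists_mod hf'.cont hf'.zero
    have hω := Mod_add hω₁ hω₂
    have ho : ∀ z u, ‖f (z + u) - f z‖ ≤ ω₁ ‖u‖ + ω₂ ‖u‖ := fun z u => by
      have := ho₁ z u
      have := Mod_nonneg hω₂ (norm_nonneg u)
      linarith
    have ho' : ∀ z u, ‖f' (z + u) - f' z‖ ≤ ω₁ ‖u‖ + ω₂ ‖u‖ := fun z u => by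
      have := ho₂ z u
      have := Mod_nonneg hω₁ (norm_nonneg u)
      linarith
    have h0 : 0 ≤ alpha A + alpha B := add_nonneg (alpha_nonneg A) (alpha_nonneg B)
    have key : ∀ η : ℝ, 0 < η → η < 1 →
        (1 - η) * (‖l‖ + ‖l'‖) ≤ (1 + η) * (alpha A + alpha B) := by
      intro η hη hη1
      obtain ⟨Θ, -, -, -, hm⟩ := main_pair hω hη hη1
      have h1 := hm A B hA hB f f' l l' hf hf' hb hb' ho ho'
      refine h1.trans ?_
      have h2 := al_le_alpha (Ω := Θ) hA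
      have h3 := al_le_alpha (Ω := Θ) hB
      apply mul_le_mul_of_nonneg_left (add_le_add h2 h3) (by linarith)
    have t1 : Tendsto (fun η : ℝ => (1 - η) * (‖l‖ + ‖l'‖)) (𝓝[>] 0)
        (𝓝 ((1 - 0) * (‖l‖ + ‖l'‖))) := by
      have : Continuous fun η : ℝ => (1 - η) * (‖l‖ + ‖l'‖) := by fun_prop
      exact (this.tendsto 0).mono_left nhdsWithin_le_nhds
    have t2 : Tendsto (fun η : ℝ => (1 + η) * (alpha A + alpha B)) (𝓝[>] 0)
        (𝓝 ((1 + 0) * (alpha A + alpha B))) := by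
      have : Continuous fun η : ℝ => (1 + η) * (alpha A + alpha B) := by fun_prop
      exact (this.tendsto 0).mono_left nhdsWithin_le_nhds
    have h4 := le_of_tendsto_of_tendsto t1 t2 (by
      filter_upwards [Ioo_mem_nhdsGT (show (0 : ℝ) < 1 by norm_num)] with η hη
      exact key η hη.1 hη.2)
    simpa using h4
  -- take suprema
  have k1 : ∀ (f' : ℂ → ℂ) (l' : ℂ), Ac (A ∩ B) f' l' → (∀ z, ‖f' z‖ ≤ 1) →
      alpha (A ∪ B) ≤ alpha A + alpha B - ‖l'‖ := by
    intro f' l' hf' hb'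
    have hne : (0 : ℝ) ≤ alpha A + alpha B - ‖l'‖ := by
      have h1 := key (fun _ => 0) f' 0 l' ⟨continuous_const, differentiableOn_const _, by simp⟩ hf'
        (fun z => by simp) hb'
      rw [norm_zero] at h1
      linarith
    refine Real.sSup_le ?_ hne
    rintro c ⟨f, l, hf, hb, rfl⟩
    have := key f f' l l' hf hf' hb hb'
    linarith
  have k2 : alpha (A ∩ B) ≤ alpha A + alpha B - alpha (A ∪ B) := by
    have hne : (0 : ℝ) ≤ alpha A + alpha B - alpha (A ∪ B) := by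
      have h1 := k1 (fun _ => 0) 0 ⟨continuous_const, differentiableOn_const _, by simp⟩
        (fun z => by simp)
      rw [norm_zero] at h1
      linarith
    refine Real.sSup_le ?_ hne
    rintro c ⟨f', l', hf', hb', rfl⟩
    have := k1 f' l' hf' hb'
    linarith
  linarith

end Pool.Agent.Y257.SC
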