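import Pool.Agent.H352R4.CA.End
import Pool.Agent.H352R3.SA.Strong

/-!
# Continuous analytic capacity is strongly subadditive: one scale
-/

set_option autoImplicit false

open MeasureTheory Complex Filter Topology Metric
open scoped ComplexConjugate
open Pool.Agent.H352R3.SA
open Pool.Agent.H352R4.CA
open Pool.Agent.H352R4.CA.OneAux
open Pool.Agent.H761R2.SV (dbar)

namespace Pool.Agent.Y257.SC

/-- first half of the one-scale estimate, for a prescribed set of lattice points -/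
theorem half {C₆ : ℝ} (hV : VO C₆) {ω Ω : ℝ → ℝ} (hω : Mod ω)
    {A B A' B' : Set ℂ} {δ' : ℝ} (hδ' : 0 < δ') (hA' : IsCompact A')
    (hB' : IsCompact B') (hP : Pst ω Ω A B A' B' δ') {S : Set ℂ} {h : ℂ → ℂ} {l : ℂ}
    {M N t : ℝ} (hS : IsCompact S) (hSA : S ⊆ A ∪ B) (H : Ac S h l) (hM0 : 0 ≤ M)
    (hMN : M < N) (hM : ∀ z, ‖h z‖ ≤ M) (ho : ∀ z u, ‖h (z + u) - h z‖ ≤ ω ‖u‖) (ht : 0 < t)
    (hc : 8 * C₆ * ω (4 * δ') / N ≤ t * (1 - (M / N) ^ 2)) (J : Finset (ℤ × ℤ))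
    (hJ : ∀ j, gp δ' j ∈ cthickening (2 * δ') S → j ∈ J) :
    ‖l‖ ≤ N * Gam (fun z => dg δ' t Ω A' J z + dg δ' t Ω B' J z) := by
  have hN : 0 < N := by linarith
  have hC6 : 1 ≤ C₆ := hV.1
  set q : ℝ := 1 - (M / N) ^ 2 with hq
  have hMN1 : M / N < 1 := (div_lt_one hN).mpr hMN
  have hMN0 : 0 ≤ M / N := div_nonneg hM0 hN.le
  have hq0 : 0 < q := by nlinarith
  -- the density
  set D : ℂ → ℂ := fun z => (N : ℂ)⁻¹ * den δ' h z with hD
  have cD : Continuous D := continuous_const.mul (den_continuous hδ' H.cont)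
  have sD : HasCompactSupport D := (den_supp hδ' hS H).mul_left
  have pD : ∀ z, ‖pot D z‖ ≤ M / N := by
    intro z
    rw [hD, pot_cmul, den_pot hδ' hS H, norm_mul, norm_inv, Complex.norm_real,
      Real.norm_of_nonneg hN.le]
    have := mol_le hδ' H.cont hM z
    rw [div_eq_inv_mul]
    exact mul_le_mul_of_nonneg_left this (by positivity)
  have iD : ∫ z, D z = (N : ℂ)⁻¹ * l := by
    rw [hD, integral_const_mul, den_int hδ' hS H]
  set gA := dg δ' t Ω A' J with hgA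
  set gB := dg δ' t Ω B' J with hgB
  have dA : Den gA := den_dg hδ' ht.le Ω A' J
  have dB : Den gB := den_dg hδ' ht.le Ω B' J
  have dAB : Den (fun z => gA z + gB z) :=
    ⟨dA.cont.add dB.cont, dA.supp.add dB.supp, fun z => add_nonneg (dA.nonneg z) (dB.nonneg z)⟩
  have claim : ∀ z, ‖D z‖ ≤ (gA z + gB z) * (1 - ‖pot D z‖ ^ 2) := by
    intro z
    have hq1 : q ≤ 1 - ‖pot D z‖ ^ 2 := by
      have := pow_le_pow_left₀ (norm_nonneg _) (pD z) 2
      rw [hq]; linarith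
    have hg0 := dAB.nonneg z
    have hred : ‖D z‖ ≤ (gA z + gB z) * q → ‖D z‖ ≤ (gA z + gB z) * (1 - ‖pot D z‖ ^ 2) :=
      fun h => h.trans (mul_le_mul_of_nonneg_left hq1 hg0)
    apply hred
    by_cases hdis : Disjoint S (closedBall z δ')
    · have h0 : D z = 0 := by
        rw [hD]; simp only [den_zero hδ' hS H hdis, mul_zero]
      rw [h0, norm_zero]
      exact mul_nonneg hg0 hq0.le
    · obtain ⟨w, hwS, hwz⟩ := Set.not_disjoint_iff.mp hdis
      rw [mem_closedBall, dist_eq_norm] at hwz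
      obtain ⟨j, hj⟩ := nearest hδ' z
      have hjJ : j ∈ J := by
        apply hJ
        refine mem_cthickening_of_dist_le _ w _ _ hwS ?_
        rw [dist_eq_norm]
        calc ‖gp δ' j - w‖ = ‖(z - w) - (z - gp δ' j)‖ := by congr 1; ring
          _ ≤ ‖z - w‖ + ‖z - gp δ' j‖ := norm_sub_le _ _
          _ ≤ 2 * δ' := by rw [norm_sub_rev z w]; linarith
      have v1 : Ac ((A ∪ B) ∩ closedBall z δ') (fun ζ => (C₆ : ℂ)⁻¹ * vit δ' h z ζ)
          ((C₆ : ℂ)⁻¹ * ((δ' : ℂ) ^ 2 * den δ' h z)) :=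
        ((vit_ac hδ' hS H z).cmul _).mono (Set.inter_subset_inter_left _ hSA)
      have v2 : ∀ w u, ‖(C₆ : ℂ)⁻¹ * vit δ' h z (w + u) - (C₆ : ℂ)⁻¹ * vit δ' h z w‖ ≤
          ω ‖u‖ := by
        intro w u
        rw [← mul_sub, norm_mul, norm_inv, Complex.norm_real, Real.norm_of_nonneg (by linarith)]
        have := hV.2 ω hω h H.cont ho δ' hδ' z w u
        calc C₆⁻¹ * ‖vit δ' h z (w + u) - vit δ' h z w‖ ≤ C₆⁻¹ * (C₆ * ω ‖u‖) :=
              mul_le_mul_of_nonneg_left this (by positivity)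
          _ = ω ‖u‖ := by field_simp
      have v3 := hP z _ _ v1 v2
      rw [norm_mul, norm_mul, norm_inv, Complex.norm_real, Real.norm_of_nonneg (by linarith),
        norm_pow, Complex.norm_real, Real.norm_of_nonneg hδ'.le] at v3
      set a := al Ω (A' ∩ closedBall z (2 * δ')) + al Ω (B' ∩ closedBall z (2 * δ')) with ha
      have ha0 : 0 ≤ a := add_nonneg (al_nonneg _ _) (al_nonneg _ _)
      have v4 : ‖den δ' h z‖ ≤ 8 * C₆ * ω (4 * δ') * a / δ' ^ 2 := by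
        rw [le_div_iff₀ (by positivity)]
        have h1 : C₆ * (C₆⁻¹ * (δ' ^ 2 * ‖den δ' h z‖)) ≤ C₆ * (8 * ω (4 * δ') * a) :=
          mul_le_mul_of_nonneg_left v3 (by linarith)
        have e1 : C₆ * (C₆⁻¹ * (δ' ^ 2 * ‖den δ' h z‖)) = ‖den δ' h z‖ * δ' ^ 2 := by
          field_simp
        rw [e1] at h1
        linarith
      have g1 := dg_ge hδ' ht.le Ω hA' hjJ hj
      have g2 := dg_ge hδ' ht.le Ω hB' hjJ hj
      have g3 : t / δ' ^ 2 * a ≤ gA z + gB z := by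
        rw [ha, mul_add]; exact add_le_add g1 g2
      calc ‖D z‖ = N⁻¹ * ‖den δ' h z‖ := by
            rw [hD, norm_mul, norm_inv, Complex.norm_real, Real.norm_of_nonneg hN.le]
        _ ≤ N⁻¹ * (8 * C₆ * ω (4 * δ') * a / δ' ^ 2) :=
            mul_le_mul_of_nonneg_left v4 (by positivity)
        _ = (8 * C₆ * ω (4 * δ') / N) * (a / δ' ^ 2) := by
            field_simp
        _ ≤ (t * q) * (a / δ' ^ 2) :=
            mul_le_mul_of_nonneg_right hc (by positivity)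
        _ = (t / δ' ^ 2 * a) * q := by ring
        _ ≤ (gA z + gB z) * q := mul_le_mul_of_nonneg_right g3 hq0.le
  have k1 := int_le_Gam dAB cD sD claim
  rw [iD, norm_mul, norm_inv, Complex.norm_real, Real.norm_of_nonneg hN.le] at k1
  calc ‖l‖ = N * (N⁻¹ * ‖l‖) := by field_simp
    _ ≤ N * Gam (fun z => gA z + gB z) := mul_le_mul_of_nonneg_left k1 hN.le

theorem dg_mono {δ t : ℝ} (hδ : 0 < δ) (ht : 0 ≤ t) (Ω : ℝ → ℝ) {A D : Set ℂ} (hA : IsCompact A)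
    (hDA : D ⊆ A) (J : Finset (ℤ × ℤ)) (z : ℂ) : dg δ t Ω D J z ≤ dg δ t Ω A J z := by
  unfold dg
  apply Finset.sum_le_sum
  intro j _
  apply mul_le_mul_of_nonneg_right _ (bmp_nonneg δ j z)
  apply mul_le_mul_of_nonneg_left _ (by positivity)
  exact al_mono (hA.inter_right isClosed_closedBall) (fun s _ => le_rfl)
    (Set.inter_subset_inter_left _ hDA)

theorem dg_three (δ t : ℝ) (Ω : ℝ → ℝ) (A : Set ℂ) (J : Finset (ℤ × ℤ)) (z : ℂ) :
    dg δ (3 * t) Ω A J z = 3 * dg δ t Ω A J z := by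
  unfold dg
  rw [Finset.mul_sum]
  apply Finset.sum_congr rfl
  intro j _
  ring

theorem den_add2 {g h : ℂ → ℝ} (hg : Den g) (hh : Den h) : Den (fun z => g z + h z) :=
  ⟨hg.cont.add hh.cont, hg.supp.add hh.supp, fun z => add_nonneg (hg.nonneg z) (hh.nonneg z)⟩

theorem den_sub2 {g h : ℂ → ℝ} (hg : Den g) (hh : Den h) (hle : ∀ z, h z ≤ g z) :
    Den (fun z => g z - h z) :=
  ⟨hg.cont.sub hh.cont, hg.supp.sub hh.supp, fun z => sub_nonneg.mpr (hle z)⟩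

theorem Gam_le_of_le {g h : ℂ → ℝ} (hg : Den g) (hh : Den h) (hle : ∀ z, g z ≤ h z) :
    Gam g ≤ Gam h := by
  have h1 := Gam_mono hg (den_sub2 hh hg hle)
  have e : (fun z => g z + (h z - g z)) = h := by funext z; ring
  rwa [e] at h1

/-- the soft capacities of the lattice densities -/
theorem soft {δ t : ℝ} (hδ : 0 < δ) (ht : 0 ≤ t) (Ω : ℝ → ℝ) {A B D : Set ℂ} (hA : IsCompact A)
    (hB : IsCompact B) (hDA : D ⊆ A) (hDB : D ⊆ B) (J : Finset (ℤ × ℤ)) :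
    Gam (fun z => dg δ t Ω A J z + dg δ t Ω B J z) +
      Gam (fun z => dg δ t Ω D J z + dg δ t Ω D J z) ≤
    Gam (dg δ (3 * t) Ω A J) + Gam (dg δ (3 * t) Ω B J) := by
  have dA : Den (dg δ t Ω A J) := den_dg hδ ht Ω A J
  have dB : Den (dg δ t Ω B J) := den_dg hδ ht Ω B J
  have dD : Den (dg δ t Ω D J) := den_dg hδ ht Ω D J
  have dDD := den_add2 dD dD
  have s1 := Gam_submod dDD dA dB
  have lA := dg_mono hδ ht Ω hA hDA J
  have lB := dg_mono hδ ht Ω hB hDB J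
  have m1 : Gam (fun z => dg δ t Ω A J z + dg δ t Ω B J z) ≤
      Gam (fun z => dg δ t Ω D J z + dg δ t Ω D J z + dg δ t Ω B J z + dg δ t Ω A J z) := by
    apply Gam_le_of_le (den_add2 dA dB) (den_add2 (den_add2 dDD dB) dA)
    intro z
    have := dD.nonneg z
    linarith
  have d3A : Den (dg δ (3 * t) Ω A J) := den_dg hδ (by positivity) Ω A J
  have d3B : Den (dg δ (3 * t) Ω B J) := den_dg hδ (by positivity) Ω B J
  have m2 : Gam (fun z => dg δ t Ω D J z + dg δ t Ω D J z + dg δ t Ω A J z) ≤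
      Gam (dg δ (3 * t) Ω A J) := by
    apply Gam_le_of_le (den_add2 dDD dA) d3A
    intro z
    rw [dg_three]
    linarith [lA z]
  have m3 : Gam (fun z => dg δ t Ω D J z + dg δ t Ω D J z + dg δ t Ω B J z) ≤
      Gam (dg δ (3 * t) Ω B J) := by
    apply Gam_le_of_le (den_add2 dDD dB) d3B
    intro z
    rw [dg_three]
    linarith [lB z]
  linarith

/-- one scale, for a pair of functions -/
theorem pair {C t₀ C₆ : ℝ} (hT : TR C t₀) (hV : VO C₆) {ω Ω : ℝ → ℝ} (hω : Mod ω)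
    {A B D A' B' D' : Set ℂ} {δ' : ℝ} (hδ' : 0 < δ') (hΩ : GM (3 * δ') Ω) (hA' : IsCompact A')
    (hB' : IsCompact B') (hD' : IsCompact D') (hDA : D' ⊆ A') (hDB : D' ⊆ B')
    (hP : Pst ω Ω A B A' B' δ') (hQ : Pst ω Ω D D D' D' δ') {S S' : Set ℂ} {h h' : ℂ → ℂ}
    {l l' : ℂ} {M N t : ℝ} (hS : IsCompact S) (hS' : IsCompact S') (hSS : S' ⊆ S)
    (hSA : S ⊆ A ∪ B) (hSD : S' ⊆ D ∪ D) (H : Ac S h l) (H' : Ac S' h' l') (hM0 : 0 ≤ M)
    (hMN : M < N) (hM : ∀ z, ‖h z‖ ≤ M) (hM' : ∀ z, ‖h' z‖ ≤ M)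
    (ho : ∀ z u, ‖h (z + u) - h z‖ ≤ ω ‖u‖) (ho' : ∀ z u, ‖h' (z + u) - h' z‖ ≤ ω ‖u‖)
    (ht : 0 < t) (ht0 : 3 * t ≤ t₀) (hc : 8 * C₆ * ω (4 * δ') / N ≤ t * (1 - (M / N) ^ 2)) :
    ‖l‖ + ‖l'‖ ≤ N * (1 + C * (3 * t)) * (al (Ph C δ' Ω) A' + al (Ph C δ' Ω) B') := by
  have hN : 0 < N := by linarith
  have hC1 : 1 ≤ C := hT.1
  obtain ⟨J, hJ⟩ := finite_J hδ' (hS.cthickening (r := 2 * δ')).isBounded
  have h1 := half hV hω hδ' hA' hB' hP hS hSA H hM0 hMN hM ho ht hc J (fun j hj => (hJ j).mpr hj)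
  have h2 := half hV hω hδ' hD' hD' hQ hS' hSD H' hM0 hMN hM' ho' ht hc J
    (fun j hj => (hJ j).mpr (cthickening_subset_of_subset _ hSS hj))
  have h3 := soft hδ' ht.le Ω hA' hB' hDA hDB J
  have hCt : 0 ≤ 1 + C * (3 * t) := by positivity
  have sub : ∀ (E : Set ℂ), (⋃ j ∈ J, E ∩ closedBall (gp δ' j) (3 * δ')) ⊆ E := by
    intro E x hx
    simp only [Set.mem_iUnion] at hx
    obtain ⟨j, _, hxE, _⟩ := hx
    exact hxE
  have k3 : Gam (dg δ' (3 * t) Ω A' J) ≤ (1 + C * (3 * t)) * al (Ph C δ' Ω) A' := by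
    refine (hT.2.2.2 δ' (3 * t) Ω A' J hδ' (by positivity) ht0 hΩ hA').trans ?_
    exact mul_le_mul_of_nonneg_left (al_mono hA' (fun s _ => le_rfl) (sub A')) hCt
  have k4 : Gam (dg δ' (3 * t) Ω B' J) ≤ (1 + C * (3 * t)) * al (Ph C δ' Ω) B' := by
    refine (hT.2.2.2 δ' (3 * t) Ω B' J hδ' (by positivity) ht0 hΩ hB').trans ?_
    exact mul_le_mul_of_nonneg_left (al_mono hB' (fun s _ => le_rfl) (sub B')) hCt
  have h4 : Gam (fun z => dg δ' t Ω A' J z + dg δ' t Ω B' J z) +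
      Gam (fun z => dg δ' t Ω D' J z + dg δ' t Ω D' J z) ≤
      (1 + C * (3 * t)) * (al (Ph C δ' Ω) A' + al (Ph C δ' Ω) B') := by
    rw [mul_add]; linarith
  calc ‖l‖ + ‖l'‖ ≤ N * (Gam (fun z => dg δ' t Ω A' J z + dg δ' t Ω B' J z) +
      Gam (fun z => dg δ' t Ω D' J z + dg δ' t Ω D' J z)) := by rw [mul_add]; linarith
    _ ≤ N * ((1 + C * (3 * t)) * (al (Ph C δ' Ω) A' + al (Ph C δ' Ω) B')) :=
        mul_le_mul_of_nonneg_left h4 hN.le
    _ = _ := by ring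

end Pool.Agent.Y257.SC
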